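import Pool.Agent.VPass.Final

/-!
# Virtual knots up to pass equivalence
-/

namespace Pool.Agent.Results.MP_e7a171_gt.PassClassification

open VPass

/-- **Classification of virtual knots up to pass equivalence.**  Virtual knots are given by their
Gauss codes.  The decorated flat diagram `dec w` of a Gauss code `w` consists of the underlying flat
Gauss code, of the cycle modulo 2 on the curve which turns exactly at the ascending crossings, and of
the Arf bit.  Two virtual knots are pass equivalent if and only if their decorated flat diagrams are
equivalent, and every decorated flat diagram is equivalent to that of a virtual knot. -/
theorem result :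
    (∀ w w' : List Ltr, IsCode w → IsCode w' → (PassEq w w' ↔ DEq (dec w) (dec w'))) ∧
    (∀ D : Deco, IsDCode D.w → ∃ w, IsCode w ∧ DEq (dec w) D) :=
  classification

end Pool.Agent.Results.MP_e7a171_gt.PassClassification
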